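import Pool.Agent.H46.CH.AS
import Pool.Agent.H69.VR.MGram

/-!
# The theorem for grammars and counting monadic second-order logic, with recolouring
-/

set_option autoImplicit false

namespace Pool.Agent.H69.CHE

open Classical Pool.Agent.H8.VR Pool.Agent.H69.VR Pool.Agent.H46.CH

theorem pf_RMn (hRG : T_RGn) : Pool.Agent.H46.CH.T_RMn := by
  intro N Q _ _ G hG m s₀ Ψ φ hΨ
  rw [specM_eq N Q G m s₀ Ψ hΨ φ]
  haveI := MS.finT Q (Ψ.clo Ψ.vb)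
  refine hRG (Option (N × (Ψ.clo Ψ.vb).T Q)) Q (ext G s₀ (Ψ.clo Ψ.vb)) ?_ m none φ
  obtain ⟨i1, rg, B, h1, h2⟩ := hG
  obtain ⟨B', hB'⟩ : ∃ B' : Option (N × (Ψ.clo Ψ.vb).T Q) → Q → ℕ,
      B' = fun s => s.elim (B s₀) fun p => B p.1 := ⟨_, rfl⟩
  have hB1 : ∀ p, B' (some p) = B p.1 := fun p => by rw [hB']; rfl
  have hB2 : B' none = B s₀ := by rw [hB']; rfl
  refine ⟨i1, rg, B', ?_, ?_⟩
  · intro y hy hr
    obtain ⟨x, hx, e1, -, -, h3⟩ := mem_pts.1 hy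
    rw [e1] at hr ⊢
    rcases h3 with h3 | ⟨h3, h4, -⟩
    · rw [h3, hB1]
      exact h1 x hx hr
    · rw [h3, hB2, ← h4]
      exact h1 x hx hr
  · intro y hy
    obtain ⟨o, ho, a, b, k1, k2, -, -, k5, k6, k7, k8⟩ := mem_ops.1 hy
    obtain ⟨g1, g2, g3⟩ := h2 o ho
    have k9 : B' y.u = B o.u := by
      rcases k8 with k8 | ⟨k8, k9, -⟩
      · rw [k8, hB1]
      · rw [k8, hB2, ← k9]
    rw [k1, k2, k5, k6, k7, k9, hB1, hB1]
    exact ⟨g1, g2, g3⟩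

end Pool.Agent.H69.CHE
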