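import Pool.Agent.H46.CH.AS

/-!
# Correct run trees are realised, with recolouring
-/

set_option autoImplicit false

namespace Pool.Agent.H69.CHE

open Classical Pool.Agent.H8.VR Pool.Agent.H69.VR Pool.Agent.H46.CH

theorem pf_ROn (hXP : T_XPn) (hXD : T_XDn) (hJW : T_JW) : Pool.Agent.H46.CH.T_ROn := by
  intro N Q L T O C _ _ _ _ _ _ V R h
  induction h with
  | leaf D q l h hc hg => exact hXP N Q L T O C V D.s q l D.c h hc
  | join D o w t₁ t₂ h₁ h₂ hs ht hu hF₁ hF₂ a' e hw hc hg ih₁ ih₂ =>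
    have h3 := hXD N Q L T O C V o t₁.dt.c t₂.dt.c a' e (by rw [hs]; exact ih₁)
      (by rw [ht]; exact ih₂) (hJW N Q L T O C V.W o _ _ _ _ _ w hw)
    have h4 : (Rt.join D o w t₁ t₂).dt.c = V.rc o a' e := funext hc
    have h5 : (Rt.join D o w t₁ t₂).dt.s = V.W.S.u o := hu.symm
    rw [h4, h5]
    exact h3

end Pool.Agent.H69.CHE
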